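import Pool.Agent.Lib.H88E.Ext2
import Pool.Agent.Lib.H76.Ext.Equiv3

/-!
# Products of conjugate elements of finite order
-/

set_option autoImplicit false

namespace Pool.Agent.H88E

open Pool.Agent.H76.Ext

/-- `x` has finite order. -/
def FinOrd {E : Type} [Group E] (x : E) : Prop := ∃ n : ℕ, 1 ≤ n ∧ x ^ n = 1

/-- `x` is trivial or has prime order. -/
def PrimeOrd {E : Type} [Group E] (x : E) : Prop := ∃ p : ℕ, p.Prime ∧ x ^ p = 1

lemma FinOrd.map {G E : Type} [Group G] [Group E] (f : G →* E) {x : G} (h : FinOrd x) :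
    FinOrd (f x) := by
  obtain ⟨n, hn, hn'⟩ := h
  exact ⟨n, hn, by rw [← map_pow, hn', map_one]⟩

lemma FinOrd.conj {E : Type} [Group E] {x : E} (h : FinOrd x) (g : E) : FinOrd (g * x * g⁻¹) := by
  obtain ⟨n, hn, hn'⟩ := h
  exact ⟨n, hn, by rw [conj_pow, hn']; group⟩

lemma PrimeOrd.conj {E : Type} [Group E] {x : E} (h : PrimeOrd x) (g : E) :
    PrimeOrd (g * x * g⁻¹) := by
  obtain ⟨n, hn, hn'⟩ := h
  exact ⟨n, hn, by rw [conj_pow, hn']; group⟩

lemma PrimeOrd.inv {E : Type} [Group E] {x : E} (h : PrimeOrd x) : PrimeOrd x⁻¹ := by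
  obtain ⟨n, hn, hn'⟩ := h
  exact ⟨n, hn, by rw [inv_pow, hn', inv_one]⟩

lemma PrimeOrd.pow {E : Type} [Group E] {x : E} (h : PrimeOrd x) (k : ℕ) : PrimeOrd (x ^ k) := by
  obtain ⟨n, hn, hn'⟩ := h
  exact ⟨n, hn, by rw [← pow_mul, mul_comm, pow_mul, hn', one_pow]⟩

/-- The product of `x` and a conjugate of `x` has finite order if `x` has. -/
def ConjProd (E : Type) [Group E] : Prop :=
  ∀ x g : E, FinOrd x → FinOrd (x * (g * x * g⁻¹))

/-- The product of `x` and the conjugate of `x` by an element of prime order has finite order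
if `x` has. -/
def ConjPrimeProd (E : Type) [Group E] : Prop :=
  ∀ x b : E, FinOrd x → PrimeOrd b → FinOrd (x * (b * x * b⁻¹))

/-- The product of an element of finite order and an element of prime order has finite order. -/
def PrimeProd (E : Type) [Group E] : Prop :=
  ∀ x b : E, FinOrd x → PrimeOrd b → FinOrd (x * b)

/-- An Engel group times an abelian group. -/
lemma ecp_prod {E : Type} [Group E] (hE : EngelCentralByPeriodic E) {A : Type} [CommGroup A] :
    EngelCentralByPeriodic (E × A) := by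
  constructor
  · intro u v
    obtain ⟨n, hn, hn'⟩ := hE.1 u.1 v.1
    refine ⟨n, hn, ?_⟩
    apply Prod.ext
    · have := map_engelComm (MonoidHom.fst E A) u v n
      simp only [MonoidHom.coe_fst] at this
      rw [this, hn']; rfl
    · have := map_engelComm (MonoidHom.snd E A) u v n
      simp only [MonoidHom.coe_snd] at this
      rw [this]
      obtain ⟨k, rfl⟩ : ∃ k, n = k + 1 := ⟨n - 1, by omega⟩
      rw [engelComm_succ]
      refine comm_eq_one_of_mem_center ?_ _
      rw [Subgroup.mem_center_iff]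
      intro g
      exact mul_comm _ _
  · intro g
    obtain ⟨n, hn, hn'⟩ := hE.2 g.1
    refine ⟨n, hn, ?_⟩
    rw [Subgroup.mem_center_iff] at hn' ⊢
    intro k
    apply Prod.ext
    · exact hn' k.1
    · exact mul_comm _ _

/-- Adjoining a central root. -/
lemma root (h3 : ∀ (E : Type) [Group E], EngelCentralByPeriodic E → ConjPrimeProd E)
    (E : Type) [Group E] (hE : EngelCentralByPeriodic E) (h c : E) (hc : PrimeOrd c) :
    ∃ L : ℕ, 1 ≤ L ∧ h ^ L ∈ Subgroup.center E ∧ (h * (c * h * c⁻¹)) ^ L = h ^ L * h ^ L := by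
  obtain ⟨n, hn, hz⟩ := hE.2 h
  have hcen : ((h ^ n, Multiplicative.ofAdd (-(n : ℤ))) : E × Multiplicative ℤ) ∈
      Subgroup.center (E × Multiplicative ℤ) := by
    rw [Subgroup.mem_center_iff]
    intro k
    apply Prod.ext
    · exact (Subgroup.mem_center_iff.1 hz) k.1
    · exact mul_comm _ _
  set K : Subgroup (E × Multiplicative ℤ) :=
    Subgroup.zpowers ((h ^ n, Multiplicative.ofAdd (-(n : ℤ))) : E × Multiplicative ℤ) with hK
  have hKc : K ≤ Subgroup.center (E × Multiplicative ℤ) := by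
    rw [hK, Subgroup.zpowers_le]; exact hcen
  have hKn : K.Normal := by
    refine ⟨fun k hk g => ?_⟩
    have h1 := (Subgroup.mem_center_iff.1 (hKc hk)) g
    rw [h1]
    simpa using hk
  have hE2 : EngelCentralByPeriodic ((E × Multiplicative ℤ) ⧸ K) :=
    (ecp_prod hE).of_surjective (QuotientGroup.mk' K) (QuotientGroup.mk'_surjective K)
  have h1 : FinOrd (QuotientGroup.mk' K (h, Multiplicative.ofAdd (-1 : ℤ))) := by
    refine ⟨n, hn, ?_⟩
    rw [← map_pow, ← MonoidHom.mem_ker, QuotientGroup.ker_mk']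
    have e : ((h, Multiplicative.ofAdd (-1 : ℤ)) : E × Multiplicative ℤ) ^ n =
        (h ^ n, Multiplicative.ofAdd (-(n : ℤ))) := by
      apply Prod.ext
      · rfl
      · show Multiplicative.ofAdd (n • (-1 : ℤ)) = _
        congr 1
        simp
    rw [e]
    exact Subgroup.mem_zpowers _
  have h2 : PrimeOrd (QuotientGroup.mk' K (c, (1 : Multiplicative ℤ))) := by
    obtain ⟨p, hp, hp'⟩ := hc
    refine ⟨p, hp, ?_⟩
    rw [← map_pow]
    have e : ((c, (1 : Multiplicative ℤ)) : E × Multiplicative ℤ) ^ p = 1 := by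
      apply Prod.ext
      · exact hp'
      · exact one_pow _
    rw [e, map_one]
  obtain ⟨M, hM, hM'⟩ := h3 _ hE2 _ _ h1 h2
  rw [← map_inv, ← map_mul, ← map_mul, ← map_mul, ← map_pow, ← MonoidHom.mem_ker,
    QuotientGroup.ker_mk', hK, Subgroup.mem_zpowers_iff] at hM'
  obtain ⟨k, hk⟩ := hM'
  have hk1 : (h ^ n) ^ k = (h * (c * h * c⁻¹)) ^ M := congrArg Prod.fst hk
  have hk2 : k * (-(n : ℤ)) = (M : ℤ) * (-2) := by
    have h4 := congrArg (fun q : E × Multiplicative ℤ => Multiplicative.toAdd q.2) hk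
    simp only [Prod.pow_snd, Prod.snd_mul, Prod.snd_inv, toAdd_zpow, toAdd_pow, toAdd_mul,
      toAdd_ofAdd, toAdd_one, toAdd_inv, smul_eq_mul, nsmul_eq_mul] at h4
    linarith
  have hcomm : Commute (h ^ n) (h ^ n) := Commute.refl _
  refine ⟨n * M, Nat.mul_pos hn hM, ?_, ?_⟩
  · rw [pow_mul]; exact Subgroup.pow_mem _ hz M
  · rw [mul_comm n M, pow_mul, ← hk1, ← pow_add]
    have e1 : ((h ^ n) ^ k) ^ n = h ^ ((n : ℤ) * k * n) := by
      rw [← zpow_natCast, ← zpow_natCast, ← zpow_mul, ← zpow_mul, mul_assoc]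
    have e2 : h ^ (M * n + M * n) = h ^ (((M * n + M * n : ℕ) : ℤ)) := (zpow_natCast _ _).symm
    rw [e1, e2]
    congr 1
    push_cast
    linear_combination (-(n : ℤ)) * hk2

/-- From conjugation by elements of prime order to products with elements of prime order. -/
theorem primeProd_of (h3 : ∀ (E : Type) [Group E], EngelCentralByPeriodic E → ConjPrimeProd E)
    (E : Type) [Group E] (hE : EngelCentralByPeriodic E) : PrimeProd E := by
  intro x b hx hb
  let f : E →* E ⧸ Subgroup.center E := QuotientGroup.mk' (Subgroup.center E)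
  have hker : f.ker ≤ Subgroup.center E := by
    rw [QuotientGroup.ker_mk']
  have hmem : ∀ {g : E}, g ∈ Subgroup.center E → f g = 1 := by
    intro g hg
    rw [← MonoidHom.mem_ker, QuotientGroup.ker_mk']
    exact hg
  have hper : ∀ t : E ⧸ Subgroup.center E, ∃ n : ℕ, 1 ≤ n ∧ t ^ n = 1 := by
    intro t
    obtain ⟨g, rfl⟩ := QuotientGroup.mk'_surjective (Subgroup.center E) t
    obtain ⟨n, hn, hn'⟩ := hE.2 g
    exact ⟨n, hn, by rw [← map_pow]; exact hmem hn'⟩
  have hadd : Add f x b := by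
    refine squares hker hper (fun m => ?_)
    obtain ⟨L, hL, hc, hL'⟩ := root h3 E hE (x ^ 2 ^ m * b ^ 2 ^ m) (b ^ 2 ^ m)⁻¹ (hb.pow _).inv
    have h5 : f (x ^ 2 ^ m * b ^ 2 ^ m) ^ L = 1 := by rw [← map_pow]; exact hmem hc
    refine ⟨L, hL, h5, ?_, ?_⟩
    · have := conj_pow_eq' hker h5 (b ^ 2 ^ m)
      rw [← map_pow, this]
      exact hmem hc
    · rw [conj_pow_eq' hker h5 (b ^ 2 ^ m)]
      rw [inv_inv] at hL'
      exact hL'
  obtain ⟨L, hL, h1, h2, h6⟩ := hadd
  obtain ⟨n, hn, hn'⟩ := hx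
  obtain ⟨p, hp, hp'⟩ := hb
  refine ⟨L * (n * p), Nat.mul_pos hL (Nat.mul_pos hn hp.pos), ?_⟩
  rw [Add.mul_left hker h1 h6, mul_comm L, mul_assoc n p L, pow_mul x, hn', mul_comm n,
    mul_comm (p * L) n, mul_comm n (p * L), mul_assoc p L n, pow_mul b, hp']
  simp

/-! ### The periodic radical -/

/-- A subgroup all of whose elements have finite order. -/
def Per {E : Type} [Group E] (N : Subgroup E) : Prop := ∀ k ∈ N, FinOrd k

lemma Per.sup {E : Type} [Group E] {N M : Subgroup E} (hMn : M.Normal) (hN : Per N) (hM : Per M) :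
    Per (N ⊔ M) := by
  intro k hk
  have h1 : QuotientGroup.mk' M k ∈ (N ⊔ M).map (QuotientGroup.mk' M) :=
    Subgroup.mem_map_of_mem _ hk
  rw [Subgroup.map_sup] at h1
  have h2 : M.map (QuotientGroup.mk' M) = ⊥ := by
    rw [Subgroup.map_eq_bot_iff, QuotientGroup.ker_mk']
  rw [h2, sup_bot_eq] at h1
  obtain ⟨u, hu, hu'⟩ := h1
  obtain ⟨n, hn, hn'⟩ := hN u hu
  have h3 : QuotientGroup.mk' M (k ^ n) = 1 := by
    rw [map_pow, ← hu', ← map_pow, hn', map_one]
  rw [← MonoidHom.mem_ker, QuotientGroup.ker_mk'] at h3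
  obtain ⟨m, hm, hm'⟩ := hM _ h3
  exact ⟨n * m, Nat.mul_pos hn hm, by rw [pow_mul]; exact hm'⟩

/-- The periodic radical. -/
def perRad (E : Type) [Group E] : Subgroup E where
  carrier := {g | ∃ N : Subgroup E, N.Normal ∧ Per N ∧ g ∈ N}
  one_mem' := ⟨⊥, inferInstance, by
    intro k hk
    rw [Subgroup.mem_bot] at hk
    exact ⟨1, le_refl _, by rw [hk, one_pow]⟩, Subgroup.one_mem _⟩
  mul_mem' := by
    rintro a b ⟨N, hN, hN', ha⟩ ⟨M, hM, hM', hb⟩
    refine ⟨N ⊔ M, Subgroup.sup_normal N M, Per.sup hM hN' hM', ?_⟩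
    exact Subgroup.mul_mem_sup ha hb
  inv_mem' := by
    rintro a ⟨N, hN, hN', ha⟩
    exact ⟨N, hN, hN', N.inv_mem ha⟩

lemma le_perRad {E : Type} [Group E] {N : Subgroup E} (hN : N.Normal) (hN' : Per N) :
    N ≤ perRad E := fun _ hg => ⟨N, hN, hN', hg⟩

lemma perRad_per (E : Type) [Group E] : Per (perRad E) := by
  rintro g ⟨N, -, hN', hg⟩
  exact hN' g hg

instance perRad_normal (E : Type) [Group E] : (perRad E).Normal := by
  refine ⟨?_⟩
  rintro k ⟨N, hN, hN', hk⟩ g
  exact ⟨N, hN, hN', hN.conj_mem k hk g⟩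

/-- The preimage of a periodic normal subgroup of `E ⧸ perRad E` lies in the radical. -/
lemma comap_perRad {E : Type} [Group E] {M : Subgroup (E ⧸ perRad E)} (hM : M.Normal)
    (hM' : Per M) : M.comap (QuotientGroup.mk' (perRad E)) ≤ perRad E := by
  refine le_perRad (hM.comap _) ?_
  intro k hk
  obtain ⟨n, hn, hn'⟩ := hM' _ hk
  rw [← map_pow, ← MonoidHom.mem_ker, QuotientGroup.ker_mk'] at hn'
  obtain ⟨m, hm, hm'⟩ := perRad_per E _ hn'
  exact ⟨n * m, Nat.mul_pos hn hm, by rw [pow_mul]; exact hm'⟩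

/-- In a group where products with elements of prime order keep finite order, the normal closure
of an element of prime order is periodic. -/
lemma per_normalClosure {E : Type} [Group E] (h : PrimeProd E) {b : E} (hb : PrimeOrd b) :
    Per (Subgroup.normalClosure {b}) := by
  intro k hk
  unfold Subgroup.normalClosure at hk
  have hs : ∀ y ∈ Group.conjugatesOfSet {b}, PrimeOrd y := by
    intro y hy
    rw [Group.mem_conjugatesOfSet_iff] at hy
    obtain ⟨a, ha, hay⟩ := hy
    rw [Set.mem_singleton_iff] at ha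
    subst ha
    obtain ⟨c, rfl⟩ := isConj_iff.1 hay
    exact hb.conj c
  induction hk using Subgroup.closure_induction_right with
  | one => exact ⟨1, le_refl _, one_pow _⟩
  | mul_right x _ y hy ih => exact h x y ih (hs y hy)
  | mul_inv_cancel x _ y hy ih => exact h x y⁻¹ ih (hs y hy).inv

/-- Normal closures of elements of prime order suffice. -/
theorem prod_of_normalClosure (h4 : ∀ (E : Type) [Group E], EngelCentralByPeriodic E →
      ∀ b : E, PrimeOrd b → Per (Subgroup.normalClosure {b}))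
    (E : Type) [Group E] (hE : EngelCentralByPeriodic E) : ProdFiniteOrder E := by
  have hE2 : EngelCentralByPeriodic (E ⧸ perRad E) :=
    hE.of_surjective (QuotientGroup.mk' _) (QuotientGroup.mk'_surjective _)
  have hprime : ∀ x : E, ∀ p : ℕ, p.Prime → x ^ p ∈ perRad E → x ∈ perRad E := by
    intro x p hp hx
    have h1 : PrimeOrd (QuotientGroup.mk' (perRad E) x) := by
      refine ⟨p, hp, ?_⟩
      rw [← map_pow, ← MonoidHom.mem_ker, QuotientGroup.ker_mk']
      exact hx
    have h2 := h4 _ hE2 _ h1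
    apply comap_perRad (M := Subgroup.normalClosure {QuotientGroup.mk' (perRad E) x})
      Subgroup.normalClosure_normal h2
    rw [Subgroup.mem_comap]
    exact Subgroup.subset_normalClosure rfl
  have hall : ∀ n : ℕ, 1 ≤ n → ∀ x : E, x ^ n ∈ perRad E → x ∈ perRad E := by
    intro n
    induction n using Nat.strong_induction_on with
    | _ n ih =>
      intro hn x hx
      rcases eq_or_ne n 1 with h1 | h1
      · rw [h1, pow_one] at hx; exact hx
      · obtain ⟨p, hp, k, hk⟩ := Nat.exists_prime_and_dvd h1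
        have hk0 : 1 ≤ k := by
          rcases Nat.eq_zero_or_pos k with h0 | h0
          · rw [h0, mul_zero] at hk; omega
          · exact h0
        have hkn : k < n := by
          rw [hk]
          have := hp.two_le
          nlinarith
        apply hprime x p hp
        apply ih k hkn hk0
        rw [← pow_mul, ← hk]
        exact hx
  rintro x y ⟨m, hm, hxm⟩ ⟨k, hk, hyk⟩
  have h1 : x ∈ perRad E := hall m hm x (by rw [hxm]; exact Subgroup.one_mem _)
  have h2 : y ∈ perRad E := hall k hk y (by rw [hyk]; exact Subgroup.one_mem _)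
  exact perRad_per E _ (Subgroup.mul_mem _ h1 h2)

end Pool.Agent.H88E
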