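import Pool.Agent.Lib.H88E.Sq
import Pool.Agent.Lib.H76.Ext.Ext1

/-!
# Extension of orders, or an infinite descending chain of infinite subgroups
-/

set_option autoImplicit false

namespace Pool.Agent.H88E

open Pool.Agent.H76.Ext

/-- There are conjugate elements `a 0`, `b 0` and exponents `e i = 2 ^ m i` such that, with
`a (i+1) = (a i)^(e i) (b i)^(e i)` and `b (i+1) = (b i)^(e i) (a i)^(e i)`, every subgroup
`⟨a i, b i⟩` is infinite. -/
def InfChain (T : Type) [Group T] : Prop :=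
  ∃ (a b : ℕ → T) (m : ℕ → ℕ), IsConj (a 0) (b 0) ∧
    (∀ i, a (i + 1) = a i ^ 2 ^ m i * b i ^ 2 ^ m i) ∧
    (∀ i, b (i + 1) = b i ^ 2 ^ m i * a i ^ 2 ^ m i) ∧
    ∀ i, (Subgroup.closure {a i, b i} : Set T).Infinite

section chain

variable {E T : Type} [Group E] [Group T] {f : E →* T} (hker : f.ker ≤ Subgroup.center E)
include hker

theorem chain_of (hper : ∀ t : T, ∃ n : ℕ, 1 ≤ n ∧ t ^ n = 1) {x y : E} (h : ¬ Add f x y) :
    InfChain T := by
  classical
  let S := {p : E × E // ¬ Add f p.1 p.2}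
  have hnext : ∀ p : S, ∃ m : ℕ, ¬ Add f (p.1.1 ^ 2 ^ m * p.1.2 ^ 2 ^ m)
      (p.1.2 ^ 2 ^ m * p.1.1 ^ 2 ^ m) := fun p => descend hker hper p.2
  choose μ hμ using hnext
  let next : S → S := fun p => ⟨(p.1.1 ^ 2 ^ μ p * p.1.2 ^ 2 ^ μ p,
    p.1.2 ^ 2 ^ μ p * p.1.1 ^ 2 ^ μ p), hμ p⟩
  let p0 : S := ⟨(x, y), h⟩
  let s : ℕ → S := fun i => next^[i + 1] p0
  have hs : ∀ i, s (i + 1) = next (s i) := by
    intro i
    show next^[i + 1 + 1] p0 = next (next^[i + 1] p0)
    rw [Function.iterate_succ_apply' next (i + 1)]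
  refine ⟨fun i => f (s i).1.1, fun i => f (s i).1.2, fun i => μ (s i), ?_, ?_, ?_, ?_⟩
  · have h0 : s 0 = next p0 := by
      show next^[0 + 1] p0 = next p0
      simp
    show IsConj (f (s 0).1.1) (f (s 0).1.2)
    rw [h0]
    show IsConj (f (x ^ 2 ^ μ p0 * y ^ 2 ^ μ p0)) (f (y ^ 2 ^ μ p0 * x ^ 2 ^ μ p0))
    rw [isConj_iff]
    refine ⟨f (y ^ 2 ^ μ p0), ?_⟩
    rw [← map_mul, ← map_inv, ← map_mul]
    congr 1
    group
  · intro i
    show f (s (i + 1)).1.1 = _
    rw [hs]
    show f ((s i).1.1 ^ 2 ^ μ (s i) * (s i).1.2 ^ 2 ^ μ (s i)) = _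
    rw [map_mul, map_pow, map_pow]
  · intro i
    show f (s (i + 1)).1.2 = _
    rw [hs]
    show f ((s i).1.2 ^ 2 ^ μ (s i) * (s i).1.1 ^ 2 ^ μ (s i)) = _
    rw [map_mul, map_pow, map_pow]
  · intro i hfin
    exact (s i).2 (Add.of_finite hker hper hfin)

end chain

/-- Periodicity of the commutator subgroup of `K ⧸ N` gives the hypothesis of the main step. -/
lemma hZ_core {K : Type} [Group K] (N : Subgroup K) [N.Normal]
    (hE : PeriodicCommutator (K ⧸ N)) (h : K) (hhc : h ∈ commutator K ⊔ N) :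
    ∃ m : ℕ, 1 ≤ m ∧ h ^ m ∈ N := by
  have h5 : (QuotientGroup.mk' N) h ∈ commutator (K ⧸ N) := by
    have h6 : (QuotientGroup.mk' N) h ∈ (commutator K ⊔ N).map (QuotientGroup.mk' N) :=
      Subgroup.mem_map_of_mem _ hhc
    rw [Subgroup.map_sup] at h6
    have h7 : N.map (QuotientGroup.mk' N) = ⊥ := by
      rw [Subgroup.map_eq_bot_iff, QuotientGroup.ker_mk']
    rw [h7, sup_bot_eq] at h6
    have h8 : (commutator K).map (QuotientGroup.mk' N) ≤ commutator (K ⧸ N) := by
      rw [commutator_def, commutator_def, Subgroup.map_commutator]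
      exact Subgroup.commutator_mono le_top le_top
    exact h8 h6
  obtain ⟨m, hm, hm'⟩ := hE _ h5
  refine ⟨m, hm, ?_⟩
  rw [← map_pow, ← MonoidHom.mem_ker, QuotientGroup.ker_mk'] at hm'
  exact hm'

/-- The extension theorem, from a condition on central quotients of two-generated subgroups. -/
theorem ext_of (G : Type) [Group G] (hG : TorsionFree G) (H : Subgroup G) [H.Normal]
    (hper : IsPeriodic (G ⧸ H))
    (hkey : ∀ x y : G, ∀ N : Subgroup (Subgroup.closure {x, y}), ∀ _ : N.Normal,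
      N ≤ H.subgroupOf (Subgroup.closure {x, y}) →
      (∀ h ∈ H.subgroupOf (Subgroup.closure {x, y}), ∀ g : Subgroup.closure {x, y},
        g * h * g⁻¹ * h⁻¹ ∈ N) → PeriodicCommutator ((Subgroup.closure {x, y}) ⧸ N))
    (P : Set G) (hP : IsInvCone H P) :
    ∃ Q : Set G, IsInvCone (⊤ : Subgroup G) Q ∧ P = Q ∩ H := by
  have hper' : ∀ g : G, ∃ n : ℕ, 1 ≤ n ∧ g ^ n ∈ H := by
    intro g
    obtain ⟨n, hn, hn'⟩ := hper (QuotientGroup.mk' H g)
    refine ⟨n, hn, ?_⟩
    rw [← map_pow, ← MonoidHom.mem_ker, QuotientGroup.ker_mk'] at hn'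
    exact hn'
  refine ⟨{g | ∃ n : ℕ, 1 ≤ n ∧ g ^ n ∈ P}, ⟨?_, ?_, ?_, ?_, ?_⟩, ?_⟩
  · intro x _; trivial
  · rintro x y ⟨m, hm, hxm⟩ ⟨k, hk, hyk⟩
    obtain ⟨l, hl, hxyl⟩ := hper' (x * y)
    have hn : 1 ≤ m * k * l := Nat.mul_pos (Nat.mul_pos hm hk) hl
    have hxn : x ^ (m * k * l) ∈ P := by
      rw [mul_assoc, pow_mul]; exact InvCone_pow hP hxm (Nat.mul_pos hk hl)
    have hyn : y ^ (m * k * l) ∈ P := by
      rw [mul_comm m k, mul_assoc, pow_mul]; exact InvCone_pow hP hyk (Nat.mul_pos hm hl)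
    have hxyn : (x * y) ^ (m * k * l) ∈ H := by
      rw [mul_comm (m * k) l, pow_mul]; exact H.pow_mem hxyl _
    refine ⟨m * k * l, hn, ?_⟩
    -- pass to the subgroup generated by `x` and `y`
    have hxK : x ∈ Subgroup.closure {x, y} := Subgroup.subset_closure (by simp)
    have hyK : y ∈ Subgroup.closure {x, y} := Subgroup.subset_closure (by simp)
    let x' : Subgroup.closure {x, y} := ⟨x, hxK⟩
    let y' : Subgroup.closure {x, y} := ⟨y, hyK⟩
    have hgen : Subgroup.closure {x', y'} = (⊤ : Subgroup (Subgroup.closure {x, y})) := by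
      apply Subgroup.map_injective (Subgroup.closure {x, y}).subtype_injective
      rw [MonoidHom.map_closure, Set.image_pair, ← MonoidHom.range_eq_map, Subgroup.range_subtype]
      rfl
    have hP' : IsInvCone (H.subgroupOf (Subgroup.closure {x, y}))
        {g : Subgroup.closure {x, y} | (g : G) ∈ P} := by
      refine ⟨?_, ?_, ?_, ?_, ?_⟩
      · intro g hg
        exact Subgroup.mem_subgroupOf.2 (hP.sub _ hg)
      · intro g h hg hh
        exact hP.mul _ _ hg hh
      · exact hP.one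
      · intro g hg hg1
        exact hP.tot (g : G) (Subgroup.mem_subgroupOf.1 hg) (fun h => hg1 (Subtype.ext h))
      · intro g h hh
        exact hP.conj _ _ hh
    have := main_cone hP' x' y' hgen
      (fun N hN hle hcent h _ hhc => hZ_core N (hkey x y N hN hle hcent) h hhc) hn hxn hyn
      (Subgroup.mem_subgroupOf.2 (by push_cast; exact hxyn))
    exact this
  · rintro ⟨n, -, hn⟩
    rw [one_pow] at hn
    exact hP.one hn
  · intro x _ hx
    obtain ⟨n, hn, hn'⟩ := hper' x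
    have h1 : x ^ n ≠ 1 := fun h => hx (hG x n hn h)
    rcases hP.tot _ hn' h1 with h2 | h2
    · left; exact ⟨n, hn, h2⟩
    · right; exact ⟨n, hn, by rw [inv_pow]; exact h2⟩
  · rintro g x ⟨n, hn, hn'⟩
    exact ⟨n, hn, by rw [conj_pow]; exact hP.conj _ _ hn'⟩
  · ext x
    constructor
    · intro hx
      exact ⟨⟨1, le_refl _, by simpa using hx⟩, hP.sub _ hx⟩
    · rintro ⟨⟨n, hn, hn'⟩, hx⟩
      have hx1 : x ≠ 1 := by
        rintro rfl
        rw [one_pow] at hn'
        exact hP.one hn'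
      rcases hP.tot x hx hx1 with h | h
      · exact h
      · exfalso
        have h1 := InvCone_pow hP h hn
        have h2 := hP.mul _ _ h1 hn'
        rw [inv_pow, inv_mul_cancel] at h2
        exact hP.one h2

/-- **Either the order extends, or `G ⧸ H` contains an infinite chain.** -/
theorem ext_or_chain (G : Type) [Group G] (hG : TorsionFree G) (H : Subgroup G) [H.Normal]
    (hper : IsPeriodic (G ⧸ H)) (P : Set G) (hP : IsInvCone H P) :
    (∃ Q : Set G, IsInvCone (⊤ : Subgroup G) Q ∧ P = Q ∩ H) ∨ InfChain (G ⧸ H) := by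
  by_cases hch : InfChain (G ⧸ H)
  · right; exact hch
  left
  refine ext_of G hG H hper ?_ P hP
  intro x y N hN hle hcent
  have hNk : N ≤ ((QuotientGroup.mk' H).comp (Subgroup.closure {x, y}).subtype).ker := by
    intro k hk
    have h1 := Subgroup.mem_subgroupOf.1 (hle hk)
    rw [MonoidHom.mem_ker]
    show QuotientGroup.mk' H (k : G) = 1
    rw [← MonoidHom.mem_ker, QuotientGroup.ker_mk']
    exact h1
  let f : (Subgroup.closure {x, y}) ⧸ N →* G ⧸ H := QuotientGroup.lift N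
    ((QuotientGroup.mk' H).comp (Subgroup.closure {x, y}).subtype) hNk
  have hsurj : Function.Surjective (QuotientGroup.mk' N) := QuotientGroup.mk'_surjective N
  have hker : f.ker ≤ Subgroup.center _ := by
    intro k hk
    obtain ⟨k, rfl⟩ := hsurj k
    have h1 : QuotientGroup.mk' H (k : G) = 1 := hk
    rw [← MonoidHom.mem_ker, QuotientGroup.ker_mk'] at h1
    rw [Subgroup.mem_center_iff]
    intro g
    obtain ⟨g, rfl⟩ := hsurj g
    rw [← map_mul, ← map_mul]
    have h2 := hcent k (Subgroup.mem_subgroupOf.2 h1) g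
    have h3 : g * k = (g * k * g⁻¹ * k⁻¹) * (k * g) := by group
    rw [h3, map_mul]
    have h4 : (QuotientGroup.mk' N) (g * k * g⁻¹ * k⁻¹) = 1 := by
      rw [← MonoidHom.mem_ker, QuotientGroup.ker_mk']; exact h2
    rw [h4, one_mul]
  intro g hg
  refine periodic_commutator (f := f) hker (fun u v => ?_) g hg
  by_contra hcon
  exact hch (chain_of hker hper hcon)

/-- Orders extend if conjugate elements of `G ⧸ H` generate finite subgroups. -/
theorem ext_of_finite (G : Type) [Group G] (hG : TorsionFree G) (H : Subgroup G) [H.Normal]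
    (hper : IsPeriodic (G ⧸ H))
    (hfin : ∀ u v : G ⧸ H, (Subgroup.closure {u, v * u * v⁻¹} : Set (G ⧸ H)).Finite)
    (P : Set G) (hP : IsInvCone H P) :
    ∃ Q : Set G, IsInvCone (⊤ : Subgroup G) Q ∧ P = Q ∩ H := by
  rcases ext_or_chain G hG H hper P hP with h | h
  · exact h
  · exfalso
    obtain ⟨a, b, m, hc, -, -, hinf⟩ := h
    obtain ⟨c, hc'⟩ := isConj_iff.1 hc
    apply hinf 0
    rw [← hc']
    exact hfin _ _

end Pool.Agent.H88E
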