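import Mathlib

/-!
# The squares trick for central extensions of periodic groups

`f : E → T` has central kernel and `T` is periodic. `Add f x y` says that some power map
`g ↦ g ^ L` into the kernel is multiplicative on the pair `(x, y)`.
-/

set_option autoImplicit false

namespace Pool.Agent.H88E

open scoped commutatorElement

variable {E T : Type} [Group E] [Group T]

/-- Some power map into the kernel of `f` is multiplicative on `(x, y)`. -/
def Add (f : E →* T) (x y : E) : Prop :=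
  ∃ L : ℕ, 1 ≤ L ∧ f x ^ L = 1 ∧ f y ^ L = 1 ∧ (x * y) ^ L = x ^ L * y ^ L

section

variable {f : E →* T} (hker : f.ker ≤ Subgroup.center E)
include hker

lemma central_of {z : E} (hz : f z = 1) (g : E) : z * g = g * z :=
  ((Subgroup.mem_center_iff.1 (hker (MonoidHom.mem_ker.2 hz))) g).symm

lemma central_pow {x : E} {L : ℕ} (hx : f x ^ L = 1) (g : E) : x ^ L * g = g * x ^ L :=
  central_of hker (by rw [map_pow]; exact hx) g

lemma Add.mul_left {x y : E} {L : ℕ} (hx : f x ^ L = 1) (h : (x * y) ^ L = x ^ L * y ^ L)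
    (M : ℕ) : (x * y) ^ (L * M) = x ^ (L * M) * y ^ (L * M) := by
  rw [pow_mul, h, (show Commute (x ^ L) (y ^ L) from central_pow hker hx _).mul_pow, ← pow_mul,
    ← pow_mul]

lemma conj_pow_eq {x : E} {L : ℕ} (hx : f x ^ L = 1) (g : E) : (g * x * g⁻¹) ^ L = x ^ L := by
  rw [conj_pow, ← central_pow hker hx g]
  group

lemma conj_pow_eq' {x : E} {L : ℕ} (hx : f x ^ L = 1) (g : E) : (g⁻¹ * x * g) ^ L = x ^ L := by
  have := conj_pow_eq hker hx g⁻¹
  rwa [inv_inv] at this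

lemma Add.symm {x y : E} (h : Add f x y) : Add f y x := by
  obtain ⟨L, hL, hx, hy, h⟩ := h
  refine ⟨L, hL, hy, hx, ?_⟩
  have h1 : y * x = y * (x * y) * y⁻¹ := by group
  have c1 := central_pow hker hx (y ^ L)
  have c2 := central_pow hker hx y⁻¹
  calc (y * x) ^ L = y * (x ^ L * y ^ L) * y⁻¹ := by rw [h1, conj_pow, h]
    _ = y * (y ^ L * x ^ L) * y⁻¹ := by rw [c1]
    _ = y * y ^ L * (x ^ L * y⁻¹) := by group
    _ = y * y ^ L * (y⁻¹ * x ^ L) := by rw [c2]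
    _ = y ^ L * x ^ L := by group

omit hker in
lemma Add.conj {x y : E} (h : Add f x y) (g : E) : Add f (g * x * g⁻¹) (g * y * g⁻¹) := by
  obtain ⟨L, hL, hx, hy, h⟩ := h
  refine ⟨L, hL, ?_, ?_, ?_⟩
  · rw [map_mul, map_mul, map_inv, conj_pow, hx]; group
  · rw [map_mul, map_mul, map_inv, conj_pow, hy]; group
  · have h1 : g * x * g⁻¹ * (g * y * g⁻¹) = g * (x * y) * g⁻¹ := by group
    rw [h1, conj_pow, conj_pow, conj_pow, h]
    group

omit hker in
lemma Add.of_commute {x y : E} (hper : ∀ t : T, ∃ n : ℕ, 1 ≤ n ∧ t ^ n = 1) (h : Commute x y) :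
    Add f x y := by
  obtain ⟨m, hm, hm'⟩ := hper (f x)
  obtain ⟨k, hk, hk'⟩ := hper (f y)
  refine ⟨m * k, Nat.mul_pos hm hk, ?_, ?_, h.mul_pow _⟩
  · rw [pow_mul, hm', one_pow]
  · rw [mul_comm, pow_mul, hk', one_pow]

/-- Schur: if `f x` and `f y` generate a finite group then the pair is additive. -/
lemma Add.of_finite {x y : E} (hper : ∀ t : T, ∃ n : ℕ, 1 ≤ n ∧ t ^ n = 1)
    (hfin : (Subgroup.closure {f x, f y} : Set T).Finite) : Add f x y := by
  set K : Subgroup E := Subgroup.closure {x, y} with hK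
  have hxK : x ∈ K := Subgroup.subset_closure (by simp)
  have hyK : y ∈ K := Subgroup.subset_closure (by simp)
  let g : K →* T := f.comp K.subtype
  have hmap : ∀ k : K, g k ∈ Subgroup.closure {f x, f y} := by
    intro k
    have h1 : (k : E) ∈ Subgroup.closure {x, y} := k.2
    have h2 : f (k : E) ∈ (Subgroup.closure {x, y}).map f := Subgroup.mem_map_of_mem _ h1
    rw [MonoidHom.map_closure, Set.image_pair] at h2
    exact h2
  have hfr : Finite g.range := by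
    apply Set.Finite.subset hfin
    rintro _ ⟨k, rfl⟩
    exact hmap k
  have hfi : g.ker.FiniteIndex := Subgroup.finiteIndex_ker g
  have hle : g.ker ≤ Subgroup.center K := by
    intro k hk
    rw [Subgroup.mem_center_iff]
    intro u
    apply Subtype.ext
    push_cast
    exact (central_of hker (show f (k : E) = 1 from hk) _).symm
  have hfc : (Subgroup.center K).FiniteIndex := Subgroup.finiteIndex_of_le hle
  set n := (Subgroup.center K).index with hn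
  have hn0 : 1 ≤ n := Nat.one_le_iff_ne_zero.2 hfc.index_ne_zero
  have h1 : (x * y) ^ n = x ^ n * y ^ n := by
    have h2 := congrArg (fun z : Subgroup.center K => ((z : K) : E))
      (map_mul (MonoidHom.transferCenterPow K) ⟨x, hxK⟩ ⟨y, hyK⟩)
    simpa [MonoidHom.transferCenterPow_apply] using h2
  have hcomm : Commute (x ^ n) (y ^ n) := by
    have h3 := (MonoidHom.transferCenterPow K ⟨x, hxK⟩).2
    rw [Subgroup.mem_center_iff] at h3
    have h4 := h3 (⟨y, hyK⟩ ^ n)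
    rw [MonoidHom.transferCenterPow_apply] at h4
    have h5 := congrArg (fun z : K => (z : E)) h4
    push_cast at h5
    exact h5.symm
  obtain ⟨m, hm, hm'⟩ := hper (f x)
  obtain ⟨k, hk, hk'⟩ := hper (f y)
  refine ⟨n * (m * k), Nat.mul_pos hn0 (Nat.mul_pos hm hk), ?_, ?_, ?_⟩
  · rw [mul_comm n, mul_assoc, pow_mul, hm', one_pow]
  · rw [mul_comm n, mul_comm m, mul_assoc, pow_mul, hk', one_pow]
  · rw [pow_mul, h1, hcomm.mul_pow, ← pow_mul, ← pow_mul]

/-- The squares trick: one step. -/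
lemma squares_step {q g : E} (h : Add f (q * g) (g⁻¹ * (q * g) * g)) :
    ∃ M : ℕ, 1 ≤ M ∧ (q ^ 2 * g ^ 2) ^ M = (q * g) ^ (2 * M) := by
  obtain ⟨L, hL, hx, hy, h⟩ := h
  refine ⟨L, hL, ?_⟩
  have h1 : q ^ 2 * g ^ 2 = q * g * (g⁻¹ * (q * g) * g) := by
    rw [pow_two, pow_two]; group
  rw [h1, h, conj_pow_eq' hker hx, ← pow_add, two_mul]

lemma squares_iter {q g : E}
    (h : ∀ m : ℕ, Add f (q ^ 2 ^ m * g ^ 2 ^ m)
      ((g ^ 2 ^ m)⁻¹ * (q ^ 2 ^ m * g ^ 2 ^ m) * g ^ 2 ^ m)) (m : ℕ) :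
    ∃ M : ℕ, 1 ≤ M ∧ (q ^ 2 ^ m * g ^ 2 ^ m) ^ M = (q * g) ^ (2 ^ m * M) := by
  induction m with
  | zero => exact ⟨1, le_refl _, by simp⟩
  | succ m ih =>
    obtain ⟨M, hM, hM'⟩ := ih
    obtain ⟨M', hN, hN'⟩ := squares_step hker (h m)
    refine ⟨M' * M, Nat.mul_pos hN hM, ?_⟩
    have e1 : q ^ 2 ^ (m + 1) = (q ^ 2 ^ m) ^ 2 := by rw [← pow_mul, pow_succ]
    have e2 : g ^ 2 ^ (m + 1) = (g ^ 2 ^ m) ^ 2 := by rw [← pow_mul, pow_succ]
    rw [e1, e2, pow_mul, hN', ← pow_mul, mul_assoc 2 M' M, mul_comm M' M, ← mul_assoc,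
      mul_comm 2 M, mul_assoc, pow_mul, hM', ← pow_mul]
    congr 1
    rw [pow_succ]
    ring

/-- **The squares trick.** -/
theorem squares {q g : E} (hper : ∀ t : T, ∃ n : ℕ, 1 ≤ n ∧ t ^ n = 1)
    (h : ∀ m : ℕ, Add f (q ^ 2 ^ m * g ^ 2 ^ m)
      ((g ^ 2 ^ m)⁻¹ * (q ^ 2 ^ m * g ^ 2 ^ m) * g ^ 2 ^ m)) : Add f q g := by
  obtain ⟨m0, hm0, hm0'⟩ := hper (f q)
  obtain ⟨k0, hk0, hk0'⟩ := hper (f g)
  set n := m0 * k0 with hn
  have hn1 : 1 ≤ n := Nat.mul_pos hm0 hk0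
  have hqn : f q ^ n = 1 := by rw [hn, pow_mul, hm0', one_pow]
  have hgn : f g ^ n = 1 := by rw [hn, mul_comm, pow_mul, hk0', one_pow]
  -- two exponents with the same residue
  obtain ⟨m1, m2, hlt, k, hk⟩ : ∃ m1 m2 : ℕ, m1 < m2 ∧ ∃ k : ℕ, 2 ^ m2 = 2 ^ m1 + n * k := by
    have : ∃ a b : ℕ, a ≠ b ∧ 2 ^ a % n = 2 ^ b % n := by
      have hfin : ¬ Function.Injective (fun a : ℕ => (⟨2 ^ a % n, Nat.mod_lt _ hn1⟩ : Fin n)) :=
        not_injective_infinite_finite _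
      rw [Function.Injective] at hfin
      push Not at hfin
      obtain ⟨a, b, hab, hne⟩ := hfin
      exact ⟨a, b, hne, congrArg Fin.val hab⟩
    obtain ⟨a, b, hne, hab⟩ := this
    rcases lt_or_gt_of_ne hne with h1 | h1
    · refine ⟨a, b, h1, ?_⟩
      have h2 : 2 ^ a ≤ 2 ^ b := Nat.pow_le_pow_right (by norm_num) h1.le
      obtain ⟨k, hk⟩ := (Nat.modEq_iff_dvd' h2).1 hab
      exact ⟨k, by omega⟩
    · refine ⟨b, a, h1, ?_⟩
      have h2 : 2 ^ b ≤ 2 ^ a := Nat.pow_le_pow_right (by norm_num) h1.le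
      obtain ⟨k, hk⟩ := (Nat.modEq_iff_dvd' h2).1 hab.symm
      exact ⟨k, by omega⟩
  have hk1 : 1 ≤ k := by
    rcases Nat.eq_zero_or_pos k with h0 | h0
    · exfalso
      rw [h0, mul_zero, add_zero] at hk
      have := Nat.pow_lt_pow_right (a := 2) (by norm_num) hlt
      omega
    · exact h0
  obtain ⟨M1, hM1, hM1'⟩ := squares_iter hker h m1
  obtain ⟨M2, hM2, hM2'⟩ := squares_iter hker h m2
  set M := M1 * M2 with hM
  have hA : (q ^ 2 ^ m1 * g ^ 2 ^ m1) ^ M = (q * g) ^ (2 ^ m1 * M) := by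
    rw [hM, pow_mul, hM1', ← pow_mul, mul_assoc]
  have hB : (q ^ 2 ^ m2 * g ^ 2 ^ m2) ^ M = (q * g) ^ (2 ^ m2 * M) := by
    rw [hM, mul_comm M1, pow_mul, hM2', ← pow_mul, mul_assoc]
  have hqk : f q ^ (n * k) = 1 := by rw [pow_mul, hqn, one_pow]
  have hgk : f g ^ (n * k) = 1 := by rw [pow_mul, hgn, one_pow]
  have hC : q ^ 2 ^ m2 * g ^ 2 ^ m2 = (q ^ 2 ^ m1 * g ^ 2 ^ m1) * (q ^ (n * k) * g ^ (n * k)) := by
    rw [hk, pow_add, pow_add]
    have := central_pow hker hqk (g ^ 2 ^ m1)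
    calc q ^ 2 ^ m1 * q ^ (n * k) * (g ^ 2 ^ m1 * g ^ (n * k))
        = q ^ 2 ^ m1 * (q ^ (n * k) * g ^ 2 ^ m1) * g ^ (n * k) := by group
      _ = q ^ 2 ^ m1 * (g ^ 2 ^ m1 * q ^ (n * k)) * g ^ (n * k) := by rw [this]
      _ = _ := by group
  have hab : ∀ u : E, (q ^ (n * k) * g ^ (n * k)) * u = u * (q ^ (n * k) * g ^ (n * k)) := by
    intro u
    rw [mul_assoc, central_pow hker hgk u, ← mul_assoc, central_pow hker hqk u, mul_assoc]
  have hD : (q * g) ^ (n * k * M) = (q ^ (n * k) * g ^ (n * k)) ^ M := by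
    have h1 : (q * g) ^ (2 ^ m1 * M) * (q * g) ^ (n * k * M) =
        (q * g) ^ (2 ^ m1 * M) * (q ^ (n * k) * g ^ (n * k)) ^ M := by
      rw [← pow_add, ← add_mul, ← hk, ← hB, hC,
        (show Commute (q ^ 2 ^ m1 * g ^ 2 ^ m1) (q ^ (n * k) * g ^ (n * k)) from
          (hab _).symm).mul_pow, hA]
    exact mul_left_cancel h1
  refine ⟨n * k * M, Nat.mul_pos (Nat.mul_pos hn1 hk1) (Nat.mul_pos hM1 hM2), ?_, ?_, ?_⟩
  · rw [pow_mul, hqk, one_pow]
  · rw [pow_mul, hgk, one_pow]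
  · rw [hD, (show Commute (q ^ (n * k)) (g ^ (n * k)) from central_pow hker hqk _).mul_pow,
      ← pow_mul, ← pow_mul]

/-- If the pair `(x, y)` is not additive, one of the pairs `(x^e y^e, y^e x^e)`, `e = 2^m`, is not
additive. -/
theorem descend {x y : E} (hper : ∀ t : T, ∃ n : ℕ, 1 ≤ n ∧ t ^ n = 1) (h : ¬ Add f x y) :
    ∃ m : ℕ, ¬ Add f (x ^ 2 ^ m * y ^ 2 ^ m) (y ^ 2 ^ m * x ^ 2 ^ m) := by
  by_contra hcon
  push Not at hcon
  apply h
  refine squares hker hper (fun m => ?_)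
  have h1 := ((hcon m).symm hker).conj (y ^ 2 ^ m)⁻¹
  have e1 : (y ^ 2 ^ m)⁻¹ * (y ^ 2 ^ m * x ^ 2 ^ m) * (y ^ 2 ^ m)⁻¹⁻¹ =
      x ^ 2 ^ m * y ^ 2 ^ m := by group
  rw [e1, inv_inv] at h1
  exact h1

/-- All elements of the commutator subgroup have finite order if all pairs are additive. -/
theorem periodic_commutator (h : ∀ x y : E, Add f x y) :
    ∀ g ∈ commutator E, ∃ n : ℕ, 1 ≤ n ∧ g ^ n = 1 := by
  let S : Subgroup E :=
    { carrier := {g | ∃ n : ℕ, 1 ≤ n ∧ g ^ n = 1}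
      one_mem' := ⟨1, le_refl _, by simp⟩
      mul_mem' := by
        rintro a b ⟨m, hm, hm'⟩ ⟨k, hk, hk'⟩
        obtain ⟨L, hL, ha, hb, hab⟩ := h a b
        refine ⟨L * (m * k), Nat.mul_pos hL (Nat.mul_pos hm hk), ?_⟩
        rw [Add.mul_left hker ha hab]
        rw [mul_comm L, pow_mul a, pow_mul a, hm', mul_comm m, pow_mul b, pow_mul b, hk']
        simp
      inv_mem' := by
        rintro a ⟨m, hm, hm'⟩
        exact ⟨m, hm, by rw [inv_pow, hm', inv_one]⟩ }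
  have hle : commutator E ≤ S := by
    rw [commutator_def, Subgroup.commutator_le]
    intro x _ y _
    obtain ⟨L, hL, ha, hb, hab⟩ := h x (y * x⁻¹ * y⁻¹)
    refine ⟨L, hL, ?_⟩
    have e : ⁅x, y⁆ = x * (y * x⁻¹ * y⁻¹) := by rw [commutatorElement_def]; group
    rw [e, hab, conj_pow_eq hker (by rw [map_inv, inv_pow, ha, inv_one]), inv_pow,
      mul_inv_cancel]
  intro g hg
  exact hle hg

end

end Pool.Agent.H88E
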